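import Pool.Agent.MWFE.StmtsC

/-!
# Row FLZ of squad MWFE: the induction
-/

set_option autoImplicit false

namespace Pool.Agent.MWFE.H3

open Pool.Agent.Helper14_MV Pool.Agent.Helper2_MV Pool.Agent.MVD
open Pool.Agent.MWE (Can XX fxy dxy dx dy up cp L4 pr Xs xl isx Fs nd nr)
open Pool.Agent.MWGR (cb)

theorem main (hcpz : CpzStmt) (hcpb : CpbStmt) (heaz : EazStmt) (hre0 : Re0Stmt) (hrez : RezStmt)
    (n : ℕ) (β : FIC) (hM : ModF β) (hz : Hz n β) (N : ℕ) : ∀ (M : ℕ) (c : List ℕ),
    nr c = N → nd c = M → FZ n β c := by
  induction N using Nat.strong_induction_on with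
  | _ N ihN =>
    intro M
    induction M using Nat.strong_induction_on with
    | _ M ihM =>
      intro c hN hM'
      have ih : IZ n β c := by
        intro c' hs
        rcases hs with hs | ⟨hs1, hs2⟩
        · exact ihN (nr c') (by omega) (nd c') c' rfl rfl
        · rcases Nat.lt_or_ge (nr c') N with hlt | hge
          · exact ihN (nr c') hlt (nd c') c' rfl rfl
          · exact ihM (nd c') (by omega) c' (by omega) rfl
      by_cases hc : c = []
      · rw [hc]
        apply hre0 n β
        by_contra hno
        refine heaz n β 1 [0, 1, 2] [1] hM ?_
        exact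
          { hz := hz
            can := by
              constructor <;> simp
            ne := by simp
            pR := by decide
            b01 := ⟨[], [], [2], rfl⟩
            no := hno
            hb := hcpb n β hz }
      · refine hrez n β c hz ih hc ?_
        intro m R c' hcan hR hb hne hnd hnr
        by_contra hno
        have ih' : IZ n β c' := fun c'' hs => ih c'' (by
          unfold SmL at hs ⊢
          rw [hnd, hnr] at hs
          exact hs)
        refine heaz n β m R c' hM ?_
        exact
          { hz := hz
            can := hcan
            ne := hne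
            pR := hR
            b01 := hb
            no := hno
            hb := hcpz n β m R c' hz hcan hne ih' hR hb hno }

theorem flz (hcpz : CpzStmt) (hcpb : CpbStmt) (heaz : EazStmt) (hre0 : Re0Stmt)
    (hrez : RezStmt) : FlzStmt := by
  intro n β hM hz c
  exact main hcpz hcpb heaz hre0 hrez n β hM hz (nr c) (nd c) c rfl rfl

end Pool.Agent.MWFE.H3
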